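import Pool.Agent.H95.Nsum

set_option autoImplicit false

open Pool.Agent.H95.Nsum

theorem Pool.Agent.Results.MP_af65a2_co.Formula.result :
    ∀ (m : ℕ) (t : Fin m → ℕ), (∀ i, 3 ≤ t i) → (∃ i, t i ≠ 4) →
      IsLeast {s | ∃ f : Vx t → ℕ, IsLab f ∧ s = mx f} (∑ i, t i + 1 + K t) ∧
      IsGreatest {s | ∃ f : Vx t → ℕ, IsLab f ∧ s = mn f} (∑ i, t i + 1 - K t) ∧
      IsLeast {s | ∃ f : Vx t → ℕ, IsLab f ∧ s = mx f - mn f} (2 * K t) :=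
  fun _ _ h h4 => main h h4
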